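import Mathlib
import Pool.Agent.H15.SS1

set_option autoImplicit false

namespace Pool.Agent.Results.MP_6d87e8_lc.Delete

/-- `L` maps onto each nonempty suborder by a weakly order-preserving surjection. -/
def StronglySurjective (L : Type) [LinearOrder L] : Prop :=
  ∀ K : Set L, K.Nonempty → ∃ f : L → K, Monotone f ∧ Function.Surjective f

theorem result (L : Type) [LinearOrder L] (h : StronglySurjective L) (x : L) :
    StronglySurjective {y : L // y ≠ x} :=
  Pool.Agent.H15.SS.main h x

end Pool.Agent.Results.MP_6d87e8_lc.Delete
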